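import Pool.Agent.Helper31.LW.Goals
import Pool.Agent.Helper47.AQ.Affine

/-!
# MYK: the monotonicity for shadow systems in the direction of an arbitrary coordinate
-/

open MeasureTheory Set
open scoped ENNReal Matrix
open Pool.Agent.Helper47.AQ

noncomputable section

namespace Pool.Agent.Helper91.LW

open Pool.Agent.Helper31.LQ Pool.Agent.Helper31.LW

/-- The exchange of two coordinates. -/
def sw {n : ℕ} (k l : Fin n) : (Fin n → ℝ) ≃ₗ[ℝ] (Fin n → ℝ) :=
  LinearEquiv.funCongrLeft ℝ ℝ (Equiv.swap k l)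

theorem sw_apply {n : ℕ} (k l : Fin n) (x : Fin n → ℝ) (i : Fin n) :
    sw k l x i = x (Equiv.swap k l i) := rfl

theorem swap_ne {n : ℕ} {k l i : Fin n} (hi : i ≠ l) : Equiv.swap k l i ≠ k := by
  intro h3
  have h4 := congrArg (Equiv.swap k l) h3
  rw [Equiv.swap_apply_self, Equiv.swap_apply_left] at h4
  exact hi h4

theorem sw_body {n : ℕ} (k l : Fin n) {K : Set (Fin n → ℝ)} (h : IsBody K) :
    IsBody (sw k l '' K) := h.affine (sw k l).toAffineEquiv

theorem sw_rfam {n : ℕ} (k l : Fin n) {X : ℝ → Set (Fin n → ℝ)} (h : RFam k X) :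
    RFam l (fun t => sw k l '' X t) := by
  refine ⟨fun t ht => sw_body k l (h.body t ht), ?_, ?_⟩
  · rintro s hs t ht r hr _ ⟨z, hz, rfl⟩
    obtain ⟨x, hx, y, hy, h1, h2⟩ := h.fib s hs t ht r hr z hz
    refine ⟨sw k l x, ⟨x, hx, rfl⟩, sw k l y, ⟨y, hy, rfl⟩, ?_, ?_⟩
    · intro i hi
      rw [sw_apply, sw_apply, sw_apply]
      exact h1 _ (swap_ne hi)
    · rw [sw_apply, sw_apply, sw_apply, Equiv.swap_apply_right]
      exact h2
  · show sw k l '' X 1 = rho l '' (sw k l '' X 0)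
    rw [h.refl, image_image, image_image]
    refine image_congr fun x _ => ?_
    funext i
    rw [sw_apply]
    unfold rho
    by_cases hi : i = l
    · subst hi
      rw [Equiv.swap_apply_right, Function.update_self, Function.update_self, sw_apply,
        Equiv.swap_apply_right]
    · have h3 : Equiv.swap k l i ≠ k := swap_ne hi
      rw [Function.update_of_ne h3, Function.update_of_ne hi, sw_apply]

theorem sw_IQ {n d : ℕ} (hA : AFFJ) (hd : 1 ≤ d) (hn : d ≤ n) (k l : Fin n)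
    {K : Set (Fin n → ℝ)} (h : IsBody K) :
    IQ 1 (fK d (sw k l '' K)) = IQ 1 (fK d K) := by
  have h1 := hA n d hd hn (sw k l).toAffineEquiv K h.comp
  have h2 : volume (sw k l '' K) = volume K := by
    have := vol_reindex (Equiv.swap k l) K
    rw [Equiv.symm_swap] at this
    exact this
  change volume (sw k l '' K) ^ d * IQ 1 (fK d (sw k l '' K)) = _ at h1
  rw [h2] at h1
  have h3 : volume K ≠ 0 := fun h4 => by
    have := h.vol_pos
    rw [h4] at this
    simp at this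
  exact (ENNReal.mul_right_inj (pow_ne_zero _ h3) (ENNReal.pow_ne_top h.vol_ne_top)).1 h1

theorem gMYK (hM : MY0) (hA : AFFJ) : MYK := by
  intro n d hd hn k X hX
  obtain ⟨e, rfl⟩ : ∃ e, d = e + 1 := ⟨d - 1, by omega⟩
  obtain ⟨m, rfl⟩ : ∃ m, n = e + 1 + m := ⟨n - (e + 1), by omega⟩
  obtain ⟨h1, h2⟩ := hM e m _ (sw_rfam k (Fin.castAdd m 0) hX)
  have h0 : (0 : ℝ) ∈ Icc (0 : ℝ) 1 := ⟨le_rfl, zero_le_one⟩
  have hI : ∀ t ∈ Icc (0 : ℝ) 1, IQ 1 (fK (e + 1) (sw k (Fin.castAdd m 0) '' X t)) =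
      IQ 1 (fK (e + 1) (X t)) := fun t ht =>
    sw_IQ hA hd hn k (Fin.castAdd m 0) (hX.body t ht)
  refine ⟨fun t ht => ?_, fun t ht h t' ht' => ?_⟩
  · have := h1 t ht
    rwa [hI t ht, hI 0 h0] at this
  · have h4 := h2 t ht (by
      rw [hI t ⟨ht.1.le, ht.2.le⟩, hI 0 h0]
      exact h) t' ht'
    rwa [hI t' ht', hI 0 h0] at h4

end Pool.Agent.Helper91.LW
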